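import Pool.Agent.Helper43.VA.Present

namespace Pool.Agent.Results.MP_b787da_al.G2CharTwo

open CritCentre

/-- Let `K` be a field of characteristic 2 and `g = G2 K` the Lie algebra of type `G₂` over `K`.
It is simple, its normalised invariant form is nondegenerate and its `2`-power map `sq` is the
matrix square in the 7-dimensional representation `rho`.  Let `T` be the divided powers of the
translation operator of `V^{κ_c}(g)`, `κ_c = -4`, and `β` the base change map from the `ℤ`-form.
The centre of `V^{κ_c}(g)` contains a vector outside the vertex subalgebra generated by the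
Harish-Chandra centre (the span of the image under `β` of the centre of the `ℤ`-form) and the
2-centre. -/
theorem result (K : Type*) [Field K] [CharP K 2] :
    LieAlgebra.IsSimple K (G2 K) ∧
    (∀ x : G2 K, (∀ y, (kappa K).form x y = 0) → x = 0) ∧
    (∀ x : G2 K, rho (sq x) = rho x * rho x) ∧
    (∃! T : ℕ → V (kappa K) (-4) → V (kappa K) (-4), V.IsTranslation T) ∧
    (∃! β : V (kappa ℤ) (-4) → V (kappa K) (-4), V.IsBaseChange β) ∧
    ∃ v : V (kappa K) (-4), v.Central ∧
      ∀ (T : ℕ → V (kappa K) (-4) → V (kappa K) (-4))
        (β : V (kappa ℤ) (-4) → V (kappa K) (-4)), V.IsTranslation T → V.IsBaseChange β →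
        v ∉ V.Generated T (β '' {w | w.Central} ∪ V.pCentre (kappa K) (-4) 2 sq) :=
  present K

end Pool.Agent.Results.MP_b787da_al.G2CharTwo
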